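import Pool.Agent.N984.QX.Stm2
import Pool.Agent.N985.QX.STATE

/-!
# Project QX (helper984): purity duality
-/

set_option autoImplicit false

namespace Pool.Agent.N285.QX

open Pool.Agent.N984.QX
open Pool.Agent.N985.QX.STATE (sg sg_add sg_zero sg_one sg_conj orth z2)
open scoped ComplexConjugate

variable {n : ℕ}

/-- `u` on `X` and `v` off `X` -/
def mix (X : Finset (Fin n)) (u v : Fin n → ZMod 2) : Fin n → ZMod 2 :=
  fun i => if i ∈ X then u i else v i

/-- the configurations supported in `X` -/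
def Q (X : Finset (Fin n)) : Finset (Fin n → ZMod 2) :=
  Finset.univ.filter (fun a => ∀ i, i ∉ X → a i = 0)

theorem mem_Q {X : Finset (Fin n)} {a : Fin n → ZMod 2} : a ∈ Q X ↔ ∀ i, i ∉ X → a i = 0 := by
  simp [Q]

/-- the purity -/
noncomputable def P (ψ : (Fin n → ZMod 2) → ℂ) (X : Finset (Fin n)) : ℂ :=
  ∑ q : (Fin n → ZMod 2) × (Fin n → ZMod 2),
    ψ q.1 * ψ q.2 * conj (ψ (mix X q.1 q.2)) * conj (ψ (mix X q.2 q.1))

theorem P_compl (ψ : (Fin n → ZMod 2) → ℂ) (X : Finset (Fin n)) : P ψ Xᶜ = P ψ X := by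
  unfold P
  refine Finset.sum_congr rfl fun q _ => ?_
  have h1 : ∀ u v : Fin n → ZMod 2, mix Xᶜ u v = mix X v u := by
    intro u v
    funext i
    unfold mix
    by_cases h : i ∈ X <;> simp [h]
  rw [h1, h1]
  ring

theorem sum_sg (X : Finset (Fin n)) (t : Fin n → ZMod 2) :
    ∑ b ∈ Q X, sg (∑ i, b i * t i) = if (∀ i ∈ X, t i = 0) then (2 : ℂ) ^ X.card else 0 := by
  have h := orth (fun i : {i // i ∈ X} => t i.1)
  have e1 : ((fun i : {i // i ∈ X} => t i.1) = 0) ↔ ∀ i ∈ X, t i = 0 := by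
    constructor
    · intro h i hi
      exact congrFun h ⟨i, hi⟩
    · intro h
      funext i
      exact h i.1 i.2
  have e2 : Fintype.card {i // i ∈ X} = X.card := Fintype.card_coe X
  rw [e2] at h
  simp only [e1] at h
  rw [← h]
  refine Finset.sum_nbij' (fun b => fun j : {i // i ∈ X} => b j.1)
    (fun s => fun i => if h : i ∈ X then s ⟨i, h⟩ else 0) (fun _ _ => Finset.mem_univ _)
    (fun s _ => ?_) (fun b hb => ?_) (fun s _ => ?_) (fun b hb => ?_)
  · rw [mem_Q]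
    intro i hi
    simp [hi]
  · funext i
    by_cases hi : i ∈ X
    · simp [hi]
    · simp [hi, mem_Q.1 hb i hi]
  · funext j
    simp
  · congr 1
    rw [Finset.sum_coe_sort X (fun i => b i * t i)]
    symm
    refine Finset.sum_subset (Finset.subset_univ X) fun i _ hi => ?_
    rw [mem_Q.1 hb i hi, zero_mul]

/-- the terms -/
noncomputable def T (ψ : (Fin n → ZMod 2) → ℂ)
    (q : (Fin n → ZMod 2) × (Fin n → ZMod 2) × (Fin n → ZMod 2)) : ℂ :=
  conj (ψ q.2.1) * ψ (q.2.1 + q.1) * ψ q.2.2 * conj (ψ (q.2.2 + q.1))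

theorem ev_sq (ψ : (Fin n → ZMod 2) → ℂ) (v : Vc n) :
    ((‖ev ψ v‖ ^ 2 : ℝ) : ℂ) = ∑ q : (Fin n → ZMod 2) × (Fin n → ZMod 2),
      T ψ (fun i => (v i).1, q) * sg (∑ i, (v i).2 * (q.1 + q.2) i) := by
  rw [Complex.ofReal_pow, ← Complex.mul_conj']
  have e1 : conj (ev ψ v) = ∑ y, ψ y * (sg (∑ i, (v i).2 * y i) *
      conj (ψ (y + fun i => (v i).1))) := by
    unfold ev
    rw [map_sum]
    refine Finset.sum_congr rfl fun y _ => ?_
    rw [map_mul, map_mul]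
    change conj (conj (ψ y)) * (conj (sg _) * _) = _
    rw [Complex.conj_conj, sg_conj]
    rfl
  have e2 : ev ψ v = ∑ x, conj (ψ x) * (sg (∑ i, (v i).2 * x i) *
      ψ (x + fun i => (v i).1)) := rfl
  rw [e1, e2, Finset.sum_mul_sum, ← Finset.univ_product_univ, Finset.sum_product]
  refine Finset.sum_congr rfl fun x _ => Finset.sum_congr rfl fun y _ => ?_
  have e3 : ∑ i, (v i).2 * (x + y) i = ∑ i, (v i).2 * x i + ∑ i, (v i).2 * y i := by
    rw [← Finset.sum_add_distrib]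
    refine Finset.sum_congr rfl fun i _ => ?_
    rw [Pi.add_apply, mul_add]
  show _ = T ψ (fun i => (v i).1, (x, y)) * sg (∑ i, (v i).2 * (x + y) i)
  rw [e3, sg_add]
  unfold T
  ring

theorem c2a : ∀ x a : ZMod 2, x + x + a = a := by decide

theorem c2b : ∀ x y : ZMod 2, x + y = 0 → x = y := by decide

theorem sum_T (ψ : (Fin n → ZMod 2) → ℂ) (X : Finset (Fin n)) :
    ∑ q ∈ (Q X ×ˢ (Finset.univ : Finset ((Fin n → ZMod 2) × (Fin n → ZMod 2)))).filter
      (fun q => ∀ i ∈ X, (q.2.1 + q.2.2) i = 0), T ψ q = P ψ X := by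
  unfold P
  have key : ∀ q ∈ (Q X ×ˢ (Finset.univ : Finset ((Fin n → ZMod 2) × (Fin n → ZMod 2)))).filter
      (fun q => ∀ i ∈ X, (q.2.1 + q.2.2) i = 0),
      (∀ i, i ∉ X → q.1 i = 0) ∧ ∀ i ∈ X, q.2.1 i = q.2.2 i := by
    intro q hq
    rw [Finset.mem_filter, Finset.mem_product] at hq
    refine ⟨mem_Q.1 hq.1.1, fun i hi => c2b _ _ ?_⟩
    have := hq.2 i hi
    rwa [Pi.add_apply] at this
  have hmix1 : ∀ q : (Fin n → ZMod 2) × (Fin n → ZMod 2) × (Fin n → ZMod 2),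
      (∀ i, i ∉ X → q.1 i = 0) → (∀ i ∈ X, q.2.1 i = q.2.2 i) →
      mix X q.2.2 (q.2.1 + q.1) = q.2.1 := by
    intro q h1 h2
    funext i
    unfold mix
    by_cases hi : i ∈ X
    · rw [if_pos hi, h2 i hi]
    · rw [if_neg hi, Pi.add_apply, h1 i hi, add_zero]
  have hmix2 : ∀ q : (Fin n → ZMod 2) × (Fin n → ZMod 2) × (Fin n → ZMod 2),
      (∀ i, i ∉ X → q.1 i = 0) → (∀ i ∈ X, q.2.1 i = q.2.2 i) →
      mix X (q.2.1 + q.1) q.2.2 = q.2.2 + q.1 := by
    intro q h1 h2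
    funext i
    unfold mix
    by_cases hi : i ∈ X
    · rw [if_pos hi, Pi.add_apply, Pi.add_apply, h2 i hi]
    · rw [if_neg hi, Pi.add_apply, h1 i hi, add_zero]
  refine Finset.sum_nbij' (fun q => (q.2.2, q.2.1 + q.1))
    (fun r => (mix X (r.1 + r.2) 0, mix X r.1 r.2, r.1)) (fun _ _ => Finset.mem_univ _)
    (fun r _ => ?_) (fun q hq => ?_) (fun r _ => ?_) (fun q hq => ?_)
  · rw [Finset.mem_filter, Finset.mem_product]
    refine ⟨⟨mem_Q.2 fun i hi => ?_, Finset.mem_univ _⟩, fun i hi => ?_⟩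
    · show mix X (r.1 + r.2) 0 i = 0
      unfold mix
      rw [if_neg hi]
      rfl
    · show (mix X r.1 r.2 + r.1) i = 0
      unfold mix
      rw [Pi.add_apply, if_pos hi]
      exact CharTwo.add_self_eq_zero _
  · obtain ⟨h1, h2⟩ := key q hq
    refine Prod.ext ?_ (Prod.ext ?_ rfl)
    · show mix X (q.2.2 + (q.2.1 + q.1)) 0 = q.1
      funext i
      unfold mix
      by_cases hi : i ∈ X
      · rw [if_pos hi, Pi.add_apply, Pi.add_apply, h2 i hi, ← add_assoc]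
        exact c2a _ _
      · rw [if_neg hi, h1 i hi]
        rfl
    · exact hmix1 q h1 h2
  · refine Prod.ext rfl ?_
    show mix X r.1 r.2 + mix X (r.1 + r.2) 0 = r.2
    funext i
    unfold mix
    rw [Pi.add_apply]
    by_cases hi : i ∈ X
    · rw [if_pos hi, if_pos hi, Pi.add_apply, ← add_assoc]
      exact c2a _ _
    · rw [if_neg hi, if_neg hi]
      exact add_zero _
  · obtain ⟨h1, h2⟩ := key q hq
    show T ψ q = ψ q.2.2 * ψ (q.2.1 + q.1) * conj (ψ (mix X q.2.2 (q.2.1 + q.1))) *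
      conj (ψ (mix X (q.2.1 + q.1) q.2.2))
    rw [hmix1 q h1 h2, hmix2 q h1 h2]
    unfold T
    ring

theorem W_eq (ψ : (Fin n → ZMod 2) → ℂ) (X : Finset (Fin n)) :
    (W ψ X : ℂ) = 2 ^ X.card * P ψ X := by
  unfold W
  rw [Complex.ofReal_sum, Finset.sum_congr rfl fun v _ => ev_sq ψ v]
  have e1 : ∑ v ∈ Finset.univ.filter (fun v : Vc n => ∀ i, i ∉ X → v i = 0),
      ∑ q : (Fin n → ZMod 2) × (Fin n → ZMod 2),
      T ψ (fun i => (v i).1, q) * sg (∑ i, (v i).2 * (q.1 + q.2) i) =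
      ∑ c ∈ Q X ×ˢ Q X, ∑ q : (Fin n → ZMod 2) × (Fin n → ZMod 2),
      T ψ (c.1, q) * sg (∑ i, c.2 i * (q.1 + q.2) i) := by
    refine Finset.sum_nbij' (fun v => (fun i => (v i).1, fun i => (v i).2))
      (fun c => fun i => (c.1 i, c.2 i)) (fun v hv => ?_) (fun c hc => ?_) (fun v _ => rfl)
      (fun c _ => rfl) (fun v _ => rfl)
    · rw [Finset.mem_filter] at hv
      rw [Finset.mem_product, mem_Q, mem_Q]
      exact ⟨fun i hi => congrArg Prod.fst (hv.2 i hi), fun i hi => congrArg Prod.snd (hv.2 i hi)⟩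
    · rw [Finset.mem_product, mem_Q, mem_Q] at hc
      rw [Finset.mem_filter]
      exact ⟨Finset.mem_univ _, fun i hi => Prod.ext (hc.1 i hi) (hc.2 i hi)⟩
  rw [e1, Finset.sum_product]
  have e2 : ∀ a ∈ Q X, ∑ b ∈ Q X, ∑ q : (Fin n → ZMod 2) × (Fin n → ZMod 2),
      T ψ (a, q) * sg (∑ i, b i * (q.1 + q.2) i) =
      ∑ q : (Fin n → ZMod 2) × (Fin n → ZMod 2), (if (∀ i ∈ X, (q.1 + q.2) i = 0) then
        (2 : ℂ) ^ X.card * T ψ (a, q) else 0) := by
    intro a _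
    rw [Finset.sum_comm]
    refine Finset.sum_congr rfl fun q _ => ?_
    rw [← Finset.mul_sum, sum_sg]
    split_ifs <;> ring
  rw [Finset.sum_congr rfl e2, ← sum_T, Finset.mul_sum, Finset.sum_filter, Finset.sum_product]

theorem t_DUAL : S_DUAL := by
  intro n ψ X
  have h1 := W_eq ψ X
  have h2 := W_eq ψ Xᶜ
  rw [P_compl] at h2
  have h3 : ((2 : ℂ) ^ Xᶜ.card) * (W ψ X : ℂ) = 2 ^ X.card * (W ψ Xᶜ : ℂ) := by
    rw [h1, h2]
    ring
  exact_mod_cast h3

end Pool.Agent.N285.QX
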